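import Mathlib

/-!
# The 2-complexity of `2^m (2^u + 2)^r`: a counterexample

The number `10^10 = (2^3 + 2)^10` is the value of an expression with only `39 < 40` copies of `2`.
Hence `‖2^m 10^r‖_2 ≤ m + 4 r - ⌊r / 10⌋` for all `m ≥ 0`, `r ≥ 1`, and the proposed formula
fails for `u = 3` and every `r ≥ 10`.
-/

namespace Pool.Agent.Results.MP_5f25aa_nt.Counterexample

/-- arithmetic expressions built from copies of `2` with addition and multiplication -/
inductive Expr : Type
  | two : Expr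
  | add : Expr → Expr → Expr
  | mul : Expr → Expr → Expr

/-- the value of an expression -/
def Expr.val : Expr → ℕ
  | .two => 2
  | .add a b => a.val + b.val
  | .mul a b => a.val * b.val

/-- the number of copies of `2` in an expression -/
def Expr.count : Expr → ℕ
  | .two => 1
  | .add a b => a.count + b.count
  | .mul a b => a.count + b.count

/-- the 2-complexity: the least number of copies of `2` in an expression with value `n`
(for `n` positive and even such an expression exists) -/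
noncomputable def cplx (n : ℕ) : ℕ := sInf {c | ∃ e : Expr, e.val = n ∧ e.count = c}

/-- `n` has an expression with exactly `c` copies of `2`, or `n = 1` and `c = 0` -/
def Rep (n c : ℕ) : Prop := (n = 1 ∧ c = 0) ∨ ∃ e : Expr, e.val = n ∧ e.count = c

lemma Rep.mul {a b c d : ℕ} (h1 : Rep a c) (h2 : Rep b d) : Rep (a * b) (c + d) := by
  rcases h1 with ⟨rfl, rfl⟩ | ⟨e, he1, he2⟩
  · simpa using h2
  · rcases h2 with ⟨rfl, rfl⟩ | ⟨f, hf1, hf2⟩
    · right; exact ⟨e, by simpa using he1, by simpa using he2⟩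
    · right; exact ⟨.mul e f, by simp [Expr.val, he1, hf1], by simp [Expr.count, he2, hf2]⟩

lemma Rep.pow {a c : ℕ} (h : Rep a c) (k : ℕ) : Rep (a ^ k) (c * k) := by
  induction k with
  | zero => left; simp
  | succ k ih => rw [pow_succ, Nat.mul_succ]; exact ih.mul h

/-- an expression with 39 copies of `2` and value `10 ^ 10` -/
def e39 : Expr :=
  (.mul (.mul .two (.mul .two (.add .two (.mul .two (.mul (.add .two (.mul .two .two)) (.mul (.add .two (.mul .two (.mul .two (.mul .two (.add .two (.mul .two (.mul .two (.mul .two (.mul .two (.mul .two (.mul .two .two))))))))))) (.add .two (.mul .two (.mul (.add .two (.mul .two .two)) (.add .two (.mul .two (.mul .two (.mul .two (.mul .two (.mul .two (.mul .two .two)))))))))))))))) (.mul .two (.mul .two (.mul .two (.mul .two (.mul .two (.mul .two .two)))))))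

lemma rep2 : Rep 2 1 := Or.inr ⟨.two, rfl, rfl⟩

lemma rep10 : Rep 10 4 :=
  Or.inr ⟨.add (.mul .two (.mul .two .two)) .two, rfl, rfl⟩

lemma rep39 : Rep (10 ^ 10) 39 :=
  Or.inr ⟨e39, by norm_num [e39, Expr.val], by norm_num [e39, Expr.count]⟩

/-- the upper bound `‖2^m (2^3+2)^r‖_2 ≤ m + (3+1) r - k` whenever `10 k ≤ r` -/
lemma bound (m r k : ℕ) (hr : 1 ≤ r) (hk : 10 * k ≤ r) :
    cplx (2 ^ m * (2 ^ 3 + 2) ^ r) + k ≤ m + (3 + 1) * r := by
  obtain ⟨s, rfl⟩ := Nat.exists_eq_add_of_le hk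
  have h : Rep (2 ^ m * ((10 ^ 10) ^ k * 10 ^ s)) (1 * m + (39 * k + 4 * s)) :=
    (rep2.pow m).mul ((rep39.pow k).mul (rep10.pow s))
  have he : 2 ^ m * (2 ^ 3 + 2) ^ (10 * k + s) = 2 ^ m * ((10 ^ 10) ^ k * 10 ^ s) := by
    rw [← pow_mul, ← pow_add]; norm_num
  rw [he]
  rcases h with ⟨h1, _⟩ | h1
  · exfalso
    have h2 : (10 : ℕ) ^ (10 * k + s) ∣ 1 := by
      rw [← h1, ← pow_mul, ← pow_add]
      exact Dvd.intro_left _ rfl
    have h3 : (10 : ℕ) ^ (10 * k + s) = 1 := Nat.dvd_one.mp h2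
    have h4 : 1 < (10 : ℕ) ^ (10 * k + s) := Nat.one_lt_pow (by omega) (by norm_num)
    omega
  · have h2 : cplx (2 ^ m * ((10 ^ 10) ^ k * 10 ^ s)) ≤ 1 * m + (39 * k + 4 * s) := by
      unfold cplx
      exact Nat.sInf_le h1
    omega

theorem result :
    (∀ m r k : ℕ, 1 ≤ r → 10 * k ≤ r →
      cplx (2 ^ m * (2 ^ 3 + 2) ^ r) + k ≤ m + (3 + 1) * r) ∧
    (∀ m r : ℕ, 10 ≤ r → cplx (2 ^ m * (2 ^ 3 + 2) ^ r) < m + (3 + 1) * r) ∧
    ¬ (∀ m u r : ℕ, 2 ≤ u → 1 ≤ r → cplx (2 ^ m * (2 ^ u + 2) ^ r) = m + (u + 1) * r) := by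
  have h2 : ∀ m r : ℕ, 10 ≤ r → cplx (2 ^ m * (2 ^ 3 + 2) ^ r) < m + (3 + 1) * r := by
    intro m r hr
    have := bound m r 1 (by omega) (by omega)
    omega
  refine ⟨fun m r k hr hk => bound m r k hr hk, h2, ?_⟩
  intro h
  have h3 := h 0 3 10 (by norm_num) (by norm_num)
  have h4 := h2 0 10 le_rfl
  omega

end Pool.Agent.Results.MP_5f25aa_nt.Counterexample
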